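import Pool.Agent.Lib.MP_185394_co.All.Main

/-!
MP_185394_co, Q1: `κ(n)` is asymptotic to `n`.  For every `n ≥ 2 ^ 5440` there is a Latin square of
order `n` with an indivisible `k`-plex, `k ≥ n - 41 n ^ (16 / 17)`; with the trivial bound
`κ(n) ≤ n` this gives `lim κ(n) / n = 1`.
-/

namespace Pool.Agent.Results.MP_185394_co.KappaAsymptotic

open Pool.Agent.Lib.MP_185394_co

theorem result :
    (∀ n : ℕ, 2 ^ 5440 ≤ n → (n : ℝ) - 41 * (n : ℝ) ^ (16 / 17 : ℝ) ≤ kappa n) ∧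
    Filter.Tendsto (fun n : ℕ => (kappa n : ℝ) / n) Filter.atTop (nhds 1) :=
  ⟨All.kappa_lower, All.tendsto_kappa⟩

end Pool.Agent.Results.MP_185394_co.KappaAsymptotic
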