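import Pool.Agent.Lib.MP_185394_co.Up.Main

/-!
MP_185394_co, Q1: the first target for all large orders.  Every Latin square of large order `n`
has a `c`-plex with `c = 2⌊n / 4⌋`; hence no Latin square of large order `n` is an indivisible
`n`-plex, i.e. `κ(n) < n` for all large `n`.
-/

namespace Pool.Agent.Results.MP_185394_co.KappaBelowOrder

open Pool.Agent.Lib.MP_185394_co

theorem result : ∃ n₀ : ℕ, ∀ n ≥ n₀,
    (∀ L : Fin n → Fin n → Fin n, IsLatinSquare L →
      ∃ P : Finset (Fin n × Fin n), IsPlex L (2 * (n / 4)) P) ∧ kappa n < n :=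
  Up.final_kappa Up.main

end Pool.Agent.Results.MP_185394_co.KappaBelowOrder
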