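import Pool.Agent.Lib.MP_185394_co.Kappa

/-!
MP_185394_co, Q1: for every `m ≡ 3 (mod 4)` with `m ≥ 7` and `3 ∤ m` there is a Latin square of
order `n = 3m` containing an indivisible `2m`-plex, so `κ(n) ≥ 2n/3` for infinitely many `n`
(the known bound is `κ(n) ≥ ⌈n/2⌉`).
-/

namespace Pool.Agent.Results.MP_185394_co.KappaTwoThirds

open Pool.Agent.Lib.MP_185394_co

theorem result : ∀ m : ℕ, m % 4 = 3 → 7 ≤ m → ¬ 3 ∣ m → 2 * m ≤ kappa (3 * m) :=
  fun _ hm hm7 h3 => two_mul_le_kappa hm hm7 h3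

end Pool.Agent.Results.MP_185394_co.KappaTwoThirds
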